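import Pool.Agent.W313.HB.Stm2
import Pool.Agent.W460.HB.WEIL

/-! Task HB-EXISTU (helper313): values of a polynomial with a given quadratic character, uniform
version. -/

set_option autoImplicit false

namespace Pool.Agent.W334.HB

open Finset Polynomial
open Pool.Agent.W313.HB Pool.Agent.W460.HB

/-- the Weil bound for the reduction -/
theorem weilu (F : ℤ[X]) (d : ℕ) (p : ℕ) [Fact p.Prime] (hp3 : 3 ≤ p)
    (hd : F.natDegree ≤ d) (h1 : 1 ≤ (F.map (Int.castRingHom (ZMod p))).natDegree)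
    (hsep : (F.map (Int.castRingHom (ZMod p))).Separable) :
    |((∑ x ∈ range p, jacobiSym (F.eval (x : ℤ)) p : ℤ) : ℝ)| ≤ d * √(p : ℝ) := by
  obtain ⟨f, hf⟩ : ∃ f, f = F.map (Int.castRingHom (ZMod p)) := ⟨_, rfl⟩
  rw [← hf] at h1 hsep
  have hdeg : f.natDegree ≤ d := by
    rw [hf]
    exact natDegree_map_le.trans hd
  have hring : ringChar (ZMod p) ≠ 2 := by
    rw [ZMod.ringChar_zmod_n]
    omega
  have h5 := Pool.Agent.H341R2.Sharp.weil_sharp hring f h1 (by
    intro c h hch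
    have h6 : IsUnit h := hsep.squarefree h ⟨C c, by rw [hch]; ring⟩
    have h7 : f.natDegree = 0 := by
      obtain ⟨r, hr⟩ := Polynomial.isUnit_iff.1 h6
      rw [hch, ← hr.2, ← C_pow, ← C_mul, natDegree_C]
    omega)
  rw [ZMod.card] at h5
  have hj : ∀ x ∈ range p, jacobiSym (F.eval (x : ℤ)) p = quadraticChar (ZMod p)
      (f.eval ((x : ℕ) : ZMod p)) := by
    intro x _
    rw [← jacobiSym.legendreSym.to_jacobiSym, legendreSym, eval_red, hf]
    push_cast
    rfl
  rw [sum_congr rfl hj, sum_range_zmod (fun y : ZMod p => quadraticChar (ZMod p) (f.eval y))]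
  push_cast
  have hdr : (f.natDegree : ℝ) ≤ d := by exact_mod_cast hdeg
  refine h5.trans (mul_le_mul_of_nonneg_right (by linarith) (Real.sqrt_nonneg _))

/-- EXISTU -/
theorem existu_ : S_EXISTU := by
  intro d
  refine ⟨(2 * d + 3) ^ 2 + 3, fun p hp hz F hd h1 hsep σ hσ => ?_⟩
  have : Fact p.Prime := ⟨hp⟩
  by_contra hno
  push Not at hno
  have hp3 : 3 ≤ p := by omega
  have hs := weilu F d p hp3 hd h1 hsep
  have hF0 : F.map (Int.castRingHom (ZMod p)) ≠ 0 := by
    intro h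
    rw [h] at h1
    simp at h1
  have c1 := (cnt F p hF0).trans hd
  have h1 : ∀ x ∈ range p, (1 + σ * jacobiSym (F.eval (x : ℤ)) p : ℤ) ≤
      (if (p : ℤ) ∣ F.eval (x : ℤ) then 1 else 0) := by
    intro x hx
    have h2 := hno x (mem_range.1 hx)
    rcases jacobiSym.trichotomy (F.eval (x : ℤ)) p with h3 | h3 | h3
    · have h4 : (p : ℤ) ∣ F.eval (x : ℤ) := by
        rw [← jacobiSym.legendreSym.to_jacobiSym] at h3
        exact (ZMod.intCast_zmod_eq_zero_iff_dvd _ p).1 ((legendreSym.eq_zero_iff p _).1 h3)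
      rw [h3, if_pos h4]
      norm_num
    · rw [h3] at h2 ⊢
      rcases hσ with h5 | h5
      · exact absurd h5.symm h2
      · rw [h5]
        split_ifs <;> norm_num
    · rw [h3] at h2 ⊢
      rcases hσ with h5 | h5
      · rw [h5]
        split_ifs <;> norm_num
      · exact absurd h5.symm h2
  have h2 := sum_le_sum h1
  rw [sum_add_distrib, ← mul_sum, sum_boole, sum_const, card_range] at h2
  have h3 : (((p : ℤ) + σ * ∑ x ∈ range p, jacobiSym (F.eval (x : ℤ)) p : ℤ) : ℝ) ≤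
      ((d : ℤ) : ℝ) := by
    have h4 : ((p : ℤ) + σ * ∑ x ∈ range p, jacobiSym (F.eval (x : ℤ)) p : ℤ) ≤ (d : ℤ) := by
      simp only [nsmul_eq_mul, mul_one] at h2
      refine h2.trans ?_
      exact_mod_cast c1
    exact_mod_cast h4
  rw [Int.cast_add, Int.cast_mul] at h3
  obtain ⟨S, hS⟩ : ∃ S : ℝ, S = ((∑ x ∈ range p, jacobiSym (F.eval (x : ℤ)) p : ℤ) : ℝ) := ⟨_, rfl⟩
  rw [← hS] at h3 hs
  have h6 : -(d * √(p : ℝ)) ≤ (σ : ℝ) * S := by
    have := abs_le.1 hs
    rcases hσ with h5 | h5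
    · rw [h5]
      push_cast
      linarith
    · rw [h5]
      push_cast
      linarith
  have h7 : (2 * d + 3 : ℝ) < √(p : ℝ) := by
    rw [Real.lt_sqrt (by positivity)]
    have : (2 * d + 3) ^ 2 < p := by omega
    exact_mod_cast this
  have h8 : √(p : ℝ) * √(p : ℝ) = p := Real.mul_self_sqrt (by positivity)
  have h9 : (0 : ℝ) ≤ d := Nat.cast_nonneg _
  push_cast at h3
  nlinarith

end Pool.Agent.W334.HB
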